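import Pool.Agent.H83.HN.Iface

/-!
# Three independent sections whose divisors are prime are algebraically independent
-/

namespace Pool.Agent.H67.S

open Pool.Agent.H83.HN MvPolynomial

theorem aeval_pt {P : Type} (s : Fin 3 → P → ℂ) (G : MvPolynomial (Fin 3) ℂ) (y : P) :
    (aeval s G : P → ℂ) y = eval (fun i => s i y) G := by
  induction G using MvPolynomial.induction_on with
  | C a =>
    rw [aeval_C, eval_C]
    rfl
  | add p q hp hq => simp [hp, hq]
  | mul_X p i hp => simp [hp]

theorem eval_scale (G : MvPolynomial (Fin 3) ℂ) (d : ℕ) (hG : G.IsHomogeneous d) (c : ℂ)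
    (x : Fin 3 → ℂ) : eval (fun i => c * x i) G = c ^ d * eval x G := by
  rw [eval_eq', eval_eq', Finset.mul_sum]
  refine Finset.sum_congr rfl fun m hm => ?_
  have hd : ∑ i, m i = d := by
    have := hG.degree_eq_sum_deg_support hm
    rw [this]
    exact (Finset.sum_subset (Finset.subset_univ _) fun i _ hi => by simpa using hi).symm
  simp only [mul_pow, Finset.prod_mul_distrib, Finset.prod_pow_eq_pow_sum, hd]
  ring

theorem X_dvd_sub (G : MvPolynomial (Fin 3) ℂ) :
    (X 0 : MvPolynomial (Fin 3) ℂ) ∣
      G - aeval (![0, X 1, X 2] : Fin 3 → MvPolynomial (Fin 3) ℂ) G := by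
  induction G using MvPolynomial.induction_on with
  | C a =>
    rw [aeval_C]
    simp
  | add p q hp hq =>
    rw [map_add, show p + q - (aeval ![0, X 1, X 2] p + aeval ![0, X 1, X 2] q) =
      (p - aeval ![0, X 1, X 2] p) + (q - aeval ![0, X 1, X 2] q) by ring]
    exact dvd_add hp hq
  | mul_X p i hp =>
    rw [map_mul, aeval_X]
    fin_cases i
    · simp
    · have h := Dvd.dvd.mul_right hp (X 1 : MvPolynomial (Fin 3) ℂ)
      rw [sub_mul] at h
      exact h
    · have h := Dvd.dvd.mul_right hp (X 2 : MvPolynomial (Fin 3) ℂ)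
      rw [sub_mul] at h
      exact h

theorem quot_hom (G' : MvPolynomial (Fin 3) ℂ) (d : ℕ)
    (h : (X 0 * G' : MvPolynomial (Fin 3) ℂ).IsHomogeneous (d + 1)) : G'.IsHomogeneous d := by
  intro m hm
  have h1 : coeff (m + Finsupp.single 0 1) (X 0 * G') = coeff m G' := by
    rw [mul_comm, coeff_mul_X]
  have h2 := h (d := m + Finsupp.single 0 1) (by rwa [h1])
  have h3 : (Finsupp.weight (1 : Fin 3 → ℕ)) (Finsupp.single (0 : Fin 3) 1) = 1 := by
    simp [Finsupp.weight_single]
  rw [map_add, h3] at h2
  omega

variable {n : ℕ} {Lam : Type} [AddCommGroup Lam] {q : Lam → Lam → ℤ}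

theorem monom_mem (M : Manifold n Lam q) (x : Lam) (s : Fin 3 → M.P → ℂ)
    (hs : ∀ i, s i ∈ M.Sec x) :
    ∀ (d : ℕ), 0 < d → ∀ a b c : ℕ, a + b + c = d → s 0 ^ a * s 1 ^ b * s 2 ^ c ∈ M.Sec (d • x) := by
  intro d
  induction d with
  | zero => intro h; omega
  | succ d ih =>
    intro _ a b c habc
    rcases Nat.eq_zero_or_pos d with hd | hd
    · subst hd
      have : (a = 1 ∧ b = 0 ∧ c = 0) ∨ (a = 0 ∧ b = 1 ∧ c = 0) ∨ (a = 0 ∧ b = 0 ∧ c = 1) := by
        omega
      rcases this with ⟨rfl, rfl, rfl⟩ | ⟨rfl, rfl, rfl⟩ | ⟨rfl, rfl, rfl⟩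
      · simpa using hs 0
      · simpa using hs 1
      · simpa using hs 2
    · rw [succ_nsmul]
      rcases Nat.eq_zero_or_pos a with ha | ha
      · rcases Nat.eq_zero_or_pos b with hb | hb
        · obtain ⟨c, rfl⟩ : ∃ c', c = c' + 1 := ⟨c - 1, by omega⟩
          have h1 := M.sec_mul _ _ _ (ih hd a b c (by omega)) _ (hs 2)
          rwa [show s 0 ^ a * s 1 ^ b * s 2 ^ (c + 1) = s 0 ^ a * s 1 ^ b * s 2 ^ c * s 2 by ring]
        · obtain ⟨b, rfl⟩ : ∃ c', b = c' + 1 := ⟨b - 1, by omega⟩
          have h1 := M.sec_mul _ _ _ (ih hd a b c (by omega)) _ (hs 1)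
          rwa [show s 0 ^ a * s 1 ^ (b + 1) * s 2 ^ c = s 0 ^ a * s 1 ^ b * s 2 ^ c * s 1 by ring]
      · obtain ⟨a, rfl⟩ : ∃ c', a = c' + 1 := ⟨a - 1, by omega⟩
        have h1 := M.sec_mul _ _ _ (ih hd a b c (by omega)) _ (hs 0)
        rwa [show s 0 ^ (a + 1) * s 1 ^ b * s 2 ^ c = s 0 ^ a * s 1 ^ b * s 2 ^ c * s 0 by ring]

theorem aeval_mem (M : Manifold n Lam q) (x : Lam) (s : Fin 3 → M.P → ℂ)
    (hs : ∀ i, s i ∈ M.Sec x) (d : ℕ) (hd : 0 < d) (G : MvPolynomial (Fin 3) ℂ)
    (hG : G.IsHomogeneous d) : (aeval s G : M.P → ℂ) ∈ M.Sec (d • x) := by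
  have h1 : (aeval s G : M.P → ℂ) = ∑ m ∈ G.support, coeff m G • (∏ i, s i ^ m i) := by
    rw [aeval_def, eval₂_eq']
    refine Finset.sum_congr rfl fun m _ => ?_
    rw [Algebra.smul_def]
  rw [h1]
  refine Submodule.sum_mem _ fun m hm => Submodule.smul_mem _ _ ?_
  rw [Fin.prod_univ_three]
  apply monom_mem M x s hs d hd
  have := hG.degree_eq_sum_deg_support hm
  rw [this]
  rw [Finset.sum_subset (Finset.subset_univ m.support) fun i _ hi => by simpa using hi]
  rw [Fin.sum_univ_three]

/-- Let `s_0, s_1, s_2` be linearly independent sections of a class `x` such that the divisor of every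
nonzero section of `x` is prime. Then `s_0, s_1, s_2` satisfy no nonzero homogeneous equation. -/
theorem no_rel (M : Manifold n Lam q) (x : Lam) (s : Fin 3 → M.P → ℂ)
    (hs : ∀ i, s i ∈ M.Sec x) (hli : LinearIndependent ℂ s)
    (hirr : ∀ u ∈ M.Sec x, u ≠ 0 → IsIrreducible {y | u y = 0} ∧
      ∀ t ∈ M.Sec x, (∀ y, u y = 0 → t y = 0) → ∃ c : ℂ, t = c • u) :
    ∀ (d : ℕ) (G : MvPolynomial (Fin 3) ℂ), G.IsHomogeneous d → G ≠ 0 →
      (aeval s G : M.P → ℂ) ≠ 0 := by
  have hs0 : s 0 ≠ 0 := hli.ne_zero 0
  obtain ⟨y0, hy0⟩ : ∃ y, s 0 y ≠ 0 := by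
    by_contra h
    push Not at h
    exact hs0 (funext h)
  intro d
  induction d with
  | zero =>
    intro G hG hG0 h
    have h1 : G = C (coeff 0 G) := by
      rw [← totalDegree_zero_iff_isHomogeneous] at hG
      exact totalDegree_eq_zero_iff_eq_C.mp hG
    have h2 := congrFun h y0
    rw [aeval_pt, h1, eval_C] at h2
    apply hG0
    rw [h1, show coeff 0 G = 0 from h2, C_0]
  | succ d ih =>
    intro G hG hG0 h
    have hpt : ∀ y, eval (fun i => s i y) G = 0 := fun y => by
      rw [← aeval_pt, h]
      rfl
    -- the polynomial `G(0, T, 1)`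
    set p : Polynomial ℂ := aeval (![0, Polynomial.X, 1] : Fin 3 → Polynomial ℂ) G with hp
    have hpe : ∀ a : ℂ, p.eval a = eval ![0, a, 1] G := by
      intro a
      rw [hp]
      clear_value p
      clear hpt h hG hG0 hp
      induction G using MvPolynomial.induction_on with
      | C c => simp
      | add u v hu hv => simp only [map_add, Polynomial.eval_add, hu, hv]
      | mul_X u i hu =>
        simp only [map_mul, Polynomial.eval_mul, hu, aeval_X, eval_X]
        congr 1
        fin_cases i <;> simp
    by_cases hp0 : p = 0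
    · -- `X 0` divides `G`
      have h3 : aeval (![0, X 1, X 2] : Fin 3 → MvPolynomial (Fin 3) ℂ) G = 0 := by
        have h4 : (X 2 : MvPolynomial (Fin 3) ℂ) *
            aeval (![0, X 1, X 2] : Fin 3 → MvPolynomial (Fin 3) ℂ) G = 0 := by
          apply MvPolynomial.funext
          intro z
          have h5 : eval z (aeval (![0, X 1, X 2] : Fin 3 → MvPolynomial (Fin 3) ℂ) G) =
              eval ![0, z 1, z 2] G := by
            clear hpe hp0 hp
            clear_value p
            clear hpt h hG hG0
            induction G using MvPolynomial.induction_on with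
            | C c => simp
            | add u v hu hv => simp only [map_add, hu, hv]
            | mul_X u i hu =>
              simp only [map_mul, hu, aeval_X, eval_X]
              congr 1
              fin_cases i <;> simp
          rw [map_mul, eval_X, h5, map_zero]
          by_cases hz : z 2 = 0
          · rw [hz, zero_mul]
          · have h6 := eval_scale G (d + 1) hG (z 2) ![0, z 1 / z 2, 1]
            rw [← hpe, hp0, Polynomial.eval_zero, mul_zero] at h6
            have h7 : (fun i => z 2 * (![0, z 1 / z 2, 1] : Fin 3 → ℂ) i) = ![0, z 1, z 2] := by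
              funext i
              fin_cases i
              · simp
              · simp
                field_simp
              · simp
            rw [h7] at h6
            rw [h6, mul_zero]
        rcases mul_eq_zero.mp h4 with h8 | h8
        · exact absurd h8 (X_ne_zero 2)
        · exact h8
      obtain ⟨G', hG'⟩ := X_dvd_sub G
      rw [h3, sub_zero] at hG'
      have hG'h : G'.IsHomogeneous d := quot_hom G' d (by rwa [← hG'])
      have hG'0 : G' ≠ 0 := by
        rintro rfl
        exact hG0 (by rw [hG', mul_zero])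
      refine ih G' hG'h hG'0 ?_
      -- `P` is the union of two closed sets
      have hcl2 : IsClosed {y | (aeval s G' : M.P → ℂ) y = 0} := by
        rcases Nat.eq_zero_or_pos d with hd | hd
        · subst hd
          have h1 : G' = C (coeff 0 G') := by
            rw [← totalDegree_zero_iff_isHomogeneous] at hG'h
            exact totalDegree_eq_zero_iff_eq_C.mp hG'h
          have h2 : coeff 0 G' ≠ 0 := by
            intro h0
            rw [h0, C_0] at h1
            exact hG'0 h1
          have h3 : {y | (aeval s G' : M.P → ℂ) y = 0} = ∅ := by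
            ext y
            simp only [Set.mem_ofPred_eq, Set.mem_empty_iff_false, iff_false]
            rw [aeval_pt, h1, eval_C]
            exact h2
          rw [h3]
          exact isClosed_empty
        · exact M.zero_closed _ _ (aeval_mem M x s hs d hd G' hG'h)
      have hcl1 : IsClosed {y | s 0 y = 0} := M.zero_closed _ _ (hs 0)
      have hun : (Set.univ : Set M.P) ⊆ {y | s 0 y = 0} ∪ {y | (aeval s G' : M.P → ℂ) y = 0} := by
        intro y _
        have h9 := hpt y
        rw [hG', map_mul, eval_X] at h9
        rcases mul_eq_zero.mp h9 with h10 | h10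
        · exact Or.inl h10
        · exact Or.inr (by rw [Set.mem_ofPred_eq, aeval_pt]; exact h10)
      have hirrP : IsPreirreducible (Set.univ : Set M.P) :=
        (IrreducibleSpace.isIrreducible_univ M.P).2
      rcases (isPreirreducible_iff_isClosed_union_isClosed.mp hirrP) _ _ hcl1 hcl2 hun with
        h11 | h11
      · exact absurd (h11 (Set.mem_univ y0)) hy0
      · funext y
        exact h11 (Set.mem_univ y)
    · -- `s 0 = 0` is covered by the divisors of finitely many linear forms
      obtain ⟨hZ, hdiv⟩ := hirr (s 0) (hs 0) hs0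
      set lin : Option ℂ → M.P → ℂ := fun r => r.elim (s 2) fun r => s 1 - r • s 2 with hlin
      have hlin_mem : ∀ r, lin r ∈ M.Sec x := by
        intro r
        cases r with
        | none => exact hs 2
        | some r => exact Submodule.sub_mem _ (hs 1) (Submodule.smul_mem _ _ (hs 2))
      classical
      set T : Finset (Set M.P) :=
        (insert none (p.roots.toFinset.image some)).image fun r => {y | lin r y = 0} with hT
      obtain ⟨Z, hZT, hZs⟩ := (isIrreducible_iff_sUnion_isClosed.mp hZ) T (by
        intro z hz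
        rw [hT, Finset.mem_image] at hz
        obtain ⟨r, -, rfl⟩ := hz
        exact M.zero_closed _ _ (hlin_mem r)) (by
        intro y hy
        simp only [Set.mem_ofPred_eq] at hy
        rw [Set.mem_sUnion]
        by_cases hy2 : s 2 y = 0
        · refine ⟨{y | lin none y = 0}, ?_, hy2⟩
          rw [hT]
          exact Finset.mem_coe.mpr (Finset.mem_image.mpr ⟨none, Finset.mem_insert_self _ _, rfl⟩)
        · have h6 := eval_scale G (d + 1) hG (s 2 y) ![0, s 1 y / s 2 y, 1]
          have h7 : (fun i => s 2 y * (![0, s 1 y / s 2 y, 1] : Fin 3 → ℂ) i) =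
              fun i => s i y := by
            funext i
            fin_cases i
            · simp [hy]
            · simp
              field_simp
            · simp
          rw [h7, hpt y, ← hpe] at h6
          have h8 : p.eval (s 1 y / s 2 y) = 0 := by
            rcases mul_eq_zero.mp h6.symm with h9 | h9
            · exact absurd (pow_eq_zero_iff (by omega) |>.mp h9) hy2
            · exact h9
          refine ⟨{z | lin (some (s 1 y / s 2 y)) z = 0}, ?_, ?_⟩
          · rw [hT]
            refine Finset.mem_coe.mpr (Finset.mem_image.mpr ⟨some (s 1 y / s 2 y), ?_, rfl⟩)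
            refine Finset.mem_insert_of_mem (Finset.mem_image_of_mem _ ?_)
            rw [Multiset.mem_toFinset, Polynomial.mem_roots hp0]
            exact h8
          · simp only [hlin, Set.mem_ofPred_eq, Option.elim_some, Pi.sub_apply, Pi.smul_apply,
              smul_eq_mul]
            field_simp
            ring)
      rw [hT, Finset.mem_image] at hZT
      obtain ⟨r, -, rfl⟩ := hZT
      obtain ⟨c, hc⟩ := hdiv (lin r) (hlin_mem r) fun y hy => hZs hy
      rw [Fintype.linearIndependent_iff] at hli
      cases r with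
      | none =>
        have h12 := hli ![c, 0, -1] (by
          rw [Fin.sum_univ_three]
          have h13 : s 2 = c • s 0 := hc
          simp only [Matrix.cons_val_zero, Matrix.cons_val_one, Matrix.cons_val]
          rw [h13]
          module) 2
        simp at h12
      | some r =>
        have h12 := hli ![c, -1, r] (by
          rw [Fin.sum_univ_three]
          have h13 : s 1 - r • s 2 = c • s 0 := hc
          simp only [Matrix.cons_val_zero, Matrix.cons_val_one, Matrix.cons_val]
          rw [← h13]
          module) 1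
        simp at h12

end Pool.Agent.H67.S
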